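import Pool.Agent.FKP.StmtsS

/-!
Row DDI of the squad FKP: divided differences exist; the ideal `Isy` is stable under them.
-/

set_option autoImplicit false

open Finset Equiv

noncomputable section

namespace Pool.Agent.FKP

theorem ddx : DdxStmt := by
  intro N i j p
  induction p using MvPolynomial.induction_on with
  | C a => exact ⟨0, by rw [MvPolynomial.rename_C, sub_self, mul_zero]⟩
  | add p q hp hq =>
    obtain ⟨p', hp'⟩ := hp
    obtain ⟨q', hq'⟩ := hq
    refine ⟨p' + q', ?_⟩
    rw [mul_add, hp', hq', map_add]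
    ring
  | mul_X p k hp =>
    obtain ⟨p', hp'⟩ := hp
    have hk : ∃ c : MvPolynomial (Fin N) ℤ, (MvPolynomial.X i - MvPolynomial.X j) * c =
        MvPolynomial.X k - MvPolynomial.X (swap i j k) := by
      by_cases h1 : k = i
      · refine ⟨1, ?_⟩
        rw [h1, swap_apply_left, mul_one]
      · by_cases h2 : k = j
        · refine ⟨-1, ?_⟩
          rw [h2, swap_apply_right]
          ring
        · refine ⟨0, ?_⟩
          rw [swap_apply_of_ne_of_ne h1 h2, sub_self, mul_zero]
    obtain ⟨c, hc⟩ := hk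
    refine ⟨p' * MvPolynomial.X k + MvPolynomial.rename (swap i j) p * c, ?_⟩
    rw [map_mul, MvPolynomial.rename_X]
    linear_combination MvPolynomial.X k * hp' + MvPolynomial.rename (swap i j) p * hc

theorem rename_ek (N k : ℕ) (e : Perm (Fin N)) :
    MvPolynomial.rename e (ek N N k) = ek N N k := by
  have h1 : ek N N k = MvPolynomial.esymm (Fin N) ℤ k := by
    have h2 : (univ.filter fun i : Fin N => i.val < N) = univ :=
      Finset.filter_true_of_mem fun i _ => i.2
    rw [ek, h2]
    rfl
  rw [h1, MvPolynomial.rename_esymm]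

theorem ddi : DdiStmt := by
  intro N i j p q hij hq hp
  have key : ∃ q' ∈ Isy N, (MvPolynomial.X i - MvPolynomial.X j) * q' =
      p - MvPolynomial.rename (swap i j) p := by
    refine Submodule.span_induction (p := fun p _ => ∃ q' ∈ Isy N,
      (MvPolynomial.X i - MvPolynomial.X j) * q' = p - MvPolynomial.rename (swap i j) p)
      ?_ ?_ ?_ ?_ hp
    · rintro z ⟨k, _, rfl⟩
      exact ⟨0, zero_mem _, by rw [rename_ek, sub_self, mul_zero]⟩
    · exact ⟨0, zero_mem _, by rw [map_zero, sub_self, mul_zero]⟩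
    · rintro a b _ _ ⟨a', ha, ha'⟩ ⟨b', hb, hb'⟩
      refine ⟨a' + b', add_mem ha hb, ?_⟩
      rw [mul_add, ha', hb', map_add]
      ring
    · rintro a b hb ⟨b', hb1, hb'⟩
      obtain ⟨d, hd⟩ := ddx N i j a
      refine ⟨d * b + MvPolynomial.rename (swap i j) a * b',
        add_mem (Ideal.mul_mem_left _ _ hb) (Ideal.mul_mem_left _ _ hb1), ?_⟩
      rw [smul_eq_mul, map_mul]
      linear_combination b * hd + MvPolynomial.rename (swap i j) a * hb'
  obtain ⟨q', hq', h1⟩ := key
  have h2 : (MvPolynomial.X i - MvPolynomial.X j : MvPolynomial (Fin N) ℤ) ≠ 0 := by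
    rw [Ne, sub_eq_zero]
    exact fun h => hij (MvPolynomial.X_injective h)
  have h3 : q = q' := mul_left_cancel₀ h2 (hq.trans h1.symm)
  rw [h3]
  exact hq'

end Pool.Agent.FKP
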